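import Mathlib
import Pool.Agent.V11114.DRBalls2

set_option autoImplicit false

/-!
MP_ef197a_an.  Shifted Douglas-Rachford iterates for two closed balls of `ℝ^k` (every `k`, in
particular `k = 3`) always converge.
-/

namespace Pool.Agent.Results.MP_ef197a_an.BallsConverge

open Filter Topology Metric

/-- `P` is the nearest-point projection onto `C`: `P x ∈ C` and `P x` is at least as close to `x`
as every other point of `C`. -/
def IsProj {k : ℕ} (C : Set (EuclideanSpace ℝ (Fin k)))
    (P : EuclideanSpace ℝ (Fin k) → EuclideanSpace ℝ (Fin k)) : Prop :=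
  ∀ x, P x ∈ C ∧ ∀ y ∈ C, dist x (P x) ≤ dist x y

/-- The reflector `R = 2 P - Id`. -/
noncomputable def refl {k : ℕ} (P : EuclideanSpace ℝ (Fin k) → EuclideanSpace ℝ (Fin k))
    (x : EuclideanSpace ℝ (Fin k)) : EuclideanSpace ℝ (Fin k) := (2 : ℝ) • P x - x

/-- The Douglas-Rachford operator `T = (Id + R_B R_A) / 2`. -/
noncomputable def DR {k : ℕ} (PA PB : EuclideanSpace ℝ (Fin k) → EuclideanSpace ℝ (Fin k))
    (x : EuclideanSpace ℝ (Fin k)) : EuclideanSpace ℝ (Fin k) :=
  (1 / 2 : ℝ) • (x + refl PB (refl PA x))

/-- `v` is the minimal displacement vector of `T`: it lies in the closure of the range of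
`Id - T` and has least norm there. -/
def IsMinDisp {k : ℕ} (T : EuclideanSpace ℝ (Fin k) → EuclideanSpace ℝ (Fin k))
    (v : EuclideanSpace ℝ (Fin k)) : Prop :=
  v ∈ closure (Set.range fun x => x - T x) ∧
    ∀ w ∈ closure (Set.range fun x => x - T x), ‖v‖ ≤ ‖w‖

/-- Sanity check (not part of the result): projections onto closed balls exist. -/
theorem exists_proj {k : ℕ} (a : EuclideanSpace ℝ (Fin k)) (r : ℝ) (hr : 0 ≤ r) :
    ∃ P, IsProj (closedBall a r) P := by
  have h : ∀ x, ∃ p ∈ closedBall a r, ∀ y ∈ closedBall a r, dist x p ≤ dist x y := by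
    intro x
    obtain ⟨p, hp, hp2⟩ := (isCompact_closedBall a r).exists_isMinOn
      ⟨a, mem_closedBall_self hr⟩ (continuous_const.dist continuous_id :
        Continuous fun y => dist x y).continuousOn
    exact ⟨p, hp, fun y hy => hp2 hy⟩
  choose P h1 h2 using h
  exact ⟨P, fun x => ⟨h1 x, h2 x⟩⟩

/-- Sanity check (not part of the result): minimal displacement vectors exist. -/
theorem exists_minDisp {k : ℕ} (T : EuclideanSpace ℝ (Fin k) → EuclideanSpace ℝ (Fin k)) :
    ∃ v, IsMinDisp T v := by
  obtain ⟨v, hv, hv2⟩ := (isClosed_closure (s := Set.range fun x => x - T x)).exists_infDist_eq_dist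
    ⟨_, subset_closure ⟨0, rfl⟩⟩ 0
  refine ⟨v, hv, fun w hw => ?_⟩
  have h1 := infDist_le_dist_of_mem (x := 0) hw
  rw [hv2] at h1
  simpa [dist_eq_norm] using h1

/-- For any two closed balls `A = closedBall a r`, `B = closedBall b s` of `ℝ^k` (`k = 3` is the
question), with minimal displacement vector `v` of the Douglas-Rachford operator `T` and every
starting point `x`, the sequence `T^n x + n v` converges. -/
theorem result (k : ℕ) (a b : EuclideanSpace ℝ (Fin k)) (r s : ℝ) (hr : 0 ≤ r) (hs : 0 ≤ s)
    (PA PB : EuclideanSpace ℝ (Fin k) → EuclideanSpace ℝ (Fin k))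
    (hPA : IsProj (closedBall a r) PA) (hPB : IsProj (closedBall b s) PB)
    (v : EuclideanSpace ℝ (Fin k)) (hv : IsMinDisp (DR PA PB) v)
    (x : EuclideanSpace ℝ (Fin k)) :
    ∃ L, Tendsto (fun n : ℕ => (DR PA PB)^[n] x + (n : ℝ) • v) atTop (𝓝 L) := by
  rcases lt_or_ge (r + s) ‖b - a‖ with hd | hd
  · exact Pool.Agent.V11114.DR.disjoint_case hr hs hd hPA hPB v hv x
  · -- the balls intersect
    obtain ⟨c, hcA, hcB⟩ : ∃ c, c ∈ closedBall a r ∧ c ∈ closedBall b s := by
      rcases eq_or_lt_of_le (add_nonneg hr hs) with h0 | h0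
      · have hr0 : r = 0 := by linarith
        have hs0 : s = 0 := by linarith
        have hab : b - a = 0 := by
          rw [← norm_eq_zero]
          exact le_antisymm (by linarith) (norm_nonneg _)
        refine ⟨a, mem_closedBall_self hr, ?_⟩
        rw [sub_eq_zero.mp hab]
        exact mem_closedBall_self hs
      · refine ⟨a + (r / (r + s)) • (b - a), ?_, ?_⟩
        · rw [mem_closedBall, dist_eq_norm, add_sub_cancel_left, norm_smul,
            Real.norm_of_nonneg (by positivity), div_mul_eq_mul_div, div_le_iff₀ h0]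
          gcongr
        · have h1 : a + (r / (r + s)) • (b - a) - b = -((s / (r + s)) • (b - a)) := by
            have h2 : s / (r + s) = 1 - r / (r + s) := by
              rw [eq_sub_iff_add_eq, ← add_div, add_comm s r, div_self h0.ne']
            rw [h2]
            module
          rw [mem_closedBall, dist_eq_norm, h1, norm_neg, norm_smul,
            Real.norm_of_nonneg (by positivity), div_mul_eq_mul_div, div_le_iff₀ h0]
          gcongr
    have hfix : DR PA PB c = c := by
      have h1 := Pool.Agent.V11114.DR.proj_mem hPA c hcA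
      have h2 := Pool.Agent.V11114.DR.proj_mem hPB c hcB
      have h3 : refl PA c = c := by unfold refl; rw [h1]; module
      have h4 : refl PB c = c := by unfold refl; rw [h2]; module
      unfold DR
      rw [h3, h4]
      module
    have hv0 : v = 0 := by
      have h1 := hv.2 0 (subset_closure ⟨c, by simp [hfix]⟩)
      rw [norm_zero] at h1
      exact norm_le_zero_iff.mp h1
    obtain ⟨L, hL⟩ := Pool.Agent.V11114.DR.km (DR PA PB)
      (Pool.Agent.V11114.DR.DR_firm (convex_closedBall a r) (convex_closedBall b s) hPA hPB)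
      c hfix x
    refine ⟨L, ?_⟩
    simpa [hv0] using hL

end Pool.Agent.Results.MP_ef197a_an.BallsConverge
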